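import Pool.Agent.helper32.QS.Spec

/-!
# Project qs: (MP_e82547_al): module CH1 (the step of the chain)
-/

set_option autoImplicit false

open scoped BigOperators commutatorElement

namespace QS

theorem CH1_central {k U H : Type} [Field k] [AddCommGroup U] [Module k U] [Group H]
    [DistribMulAction H U] (hf : Fai H U) {a c : H} (ha : a ∈ SA k U H) (hc : c ∈ SC k U H) :
    a * c = c * a := by
  obtain ⟨l, hl⟩ := ha
  have h1 : (c * a)⁻¹ * (a * c) = 1 := by
    apply hf
    intro v
    rw [mul_smul, inv_smul_eq_iff, mul_smul, mul_smul, hl, hl]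
    exact (hc l v).symm
  have h2 := inv_mul_eq_one.1 h1
  exact h2.symm

theorem CH1_SA_le_SC {k U H : Type} [Field k] [AddCommGroup U] [Module k U] [Group H]
    [DistribMulAction H U] : SA k U H ≤ SC k U H := by
  rintro h ⟨l, hl⟩ c u
  rw [hl, hl, smul_smul, smul_smul, mul_comm]

theorem CH1_key {H : Type} [Group H] {A C : Subgroup H} (hAC : ∀ a ∈ A, ∀ c ∈ C, a * c = c * a)
    {c c' e a : H} (hc : c ∈ C) (he : e ∈ C) (ha : a ∈ A)
    (h : c' * e * c'⁻¹ = c * e * c⁻¹ * a) : ⁅c⁻¹ * c', e⁆ = a := by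
  have h1 : a * c = c * a := hAC a ha c hc
  have h2 : a * e = e * a := hAC a ha e he
  calc ⁅c⁻¹ * c', e⁆ = c⁻¹ * (c' * e * c'⁻¹) * c * e⁻¹ := by
        rw [commutatorElement_def]; group
    _ = c⁻¹ * (c * e * c⁻¹ * a) * c * e⁻¹ := by rw [h]
    _ = e * c⁻¹ * (a * c) * e⁻¹ := by group
    _ = e * c⁻¹ * (c * a) * e⁻¹ := by rw [h1]
    _ = (e * a) * e⁻¹ := by group
    _ = (a * e) * e⁻¹ := by rw [h2]
    _ = a := by group

theorem CH1 : CH1_stmt := by
  intro k U H _ _ _ _ _ _ _ _ hSLD S hS W P C₁ C₂ hAW hWS hP hC₁ e he hC₂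
  have hcen : ∀ a ∈ SA k U H, ∀ c ∈ SC k U H, a * c = c * a := fun a ha c hc =>
    CH1_central hSLD.faith ha hc
  have hC1C : ∀ c ∈ C₁, c ∈ SC k U H := fun c hc => ((hC₁ c).1 hc).1
  have heC : e ∈ SC k U H := hS.hC he
  have hfinH : Finite H := inferInstance
  -- criterion for equality of cosets
  have hinj : ∀ c ∈ C₁, ∀ c' ∈ C₁, ∀ a ∈ SA k U H, c' * e * c'⁻¹ = c * e * c⁻¹ * a →
      c⁻¹ * c' ∈ C₂ := by
    intro c hc c' hc' a ha h
    rw [hC₂]
    refine ⟨C₁.mul_mem (C₁.inv_mem hc) hc', ?_⟩
    rw [CH1_key hcen (hC1C c hc) heC ha h]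
    exact ha
  have hnorm := hS.norm
  have hconjS : ∀ c : H, c * e * c⁻¹ ∈ S := fun c => hnorm.conj_mem e he c
  have hmemP : ∀ c ∈ C₁, ⁅c, e⁆ ∈ P := by
    intro c hc
    rw [hP]
    have hcC := hC1C c hc
    constructor
    · rw [commutatorElement_def]
      exact S.mul_mem (hconjS c) (S.inv_mem he)
    · intro w hw
      have hwS : w ∈ S := hWS hw
      have hwC : w ∈ SC k U H := hS.hC hwS
      have hbC : c * e * c⁻¹ ∈ SC k U H := hS.hC (hconjS c)
      have hlam : ⁅e, w⁆ ∈ SA k U H := hS.comm e he w hwS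
      have halp : ⁅c, w⁆ ∈ SA k U H := ((hC₁ c).1 hc).2 w hw
      obtain ⟨lam, hlam_def⟩ : ∃ l, l = ⁅e, w⁆ := ⟨_, rfl⟩
      obtain ⟨alp, halp_def⟩ : ∃ l, l = ⁅c, w⁆ := ⟨_, rfl⟩
      obtain ⟨b, hb_def⟩ : ∃ b, b = c * e * c⁻¹ := ⟨_, rfl⟩
      rw [← hlam_def] at hlam
      rw [← halp_def] at halp
      rw [← hb_def] at hbC
      have e1 : e * w = lam * w * e := by
        rw [hlam_def, commutatorElement_def]; group
      have e2 : c * w * c⁻¹ = alp * w := by
        rw [halp_def, commutatorElement_def]; group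
      -- conjugate e1 by c
      have e3 : b * (alp * w) = lam * (alp * w) * b := by
        have h1 : c * (e * w) * c⁻¹ = c * (lam * w * e) * c⁻¹ := by rw [e1]
        have h2 : c * (e * w) * c⁻¹ = (c * e * c⁻¹) * (c * w * c⁻¹) := by group
        have h3 : c * (lam * w * e) * c⁻¹ = (c * lam) * c⁻¹ * (c * w * c⁻¹) * (c * e * c⁻¹) := by
          group
        rw [h2, h3, ← hcen lam hlam c hcC, e2, ← hb_def] at h1
        rw [h1]
        group
      have e4 : b * w = lam * w * b := by
        have h1 : alp * (b * w) = alp * (lam * w * b) := by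
          calc alp * (b * w) = (alp * b) * w := by group
            _ = (b * alp) * w := by rw [hcen alp halp b hbC]
            _ = b * (alp * w) := by group
            _ = lam * (alp * w) * b := e3
            _ = (lam * alp) * w * b := by group
            _ = (alp * lam) * w * b := by rw [hcen alp halp lam (CH1_SA_le_SC hlam)]
            _ = alp * (lam * w * b) := by group
        exact mul_left_cancel h1
      have hlameC : lam * e = e * lam := hcen lam hlam e heC
      have e5 : w * e⁻¹ = lam * (e⁻¹ * w) := by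
        have h1 : e * (w * e⁻¹) = e * (lam * (e⁻¹ * w)) := by
          calc e * (w * e⁻¹) = (e * w) * e⁻¹ := by group
            _ = (lam * w * e) * e⁻¹ := by rw [e1]
            _ = lam * w := by group
            _ = lam * e * e⁻¹ * w := by group
            _ = e * lam * e⁻¹ * w := by rw [hlameC]
            _ = e * (lam * (e⁻¹ * w)) := by group
        exact mul_left_cancel h1
      have hlambC : lam * b = b * lam := hcen lam hlam b hbC
      have goal1 : (b * e⁻¹) * w = w * (b * e⁻¹) := by
        have h1 : lam * ((b * e⁻¹) * w) = lam * (w * (b * e⁻¹)) := by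
          calc lam * ((b * e⁻¹) * w) = (lam * b) * (e⁻¹ * w) := by group
            _ = (b * lam) * (e⁻¹ * w) := by rw [hlambC]
            _ = b * (lam * (e⁻¹ * w)) := by group
            _ = b * (w * e⁻¹) := by rw [← e5]
            _ = (b * w) * e⁻¹ := by group
            _ = (lam * w * b) * e⁻¹ := by rw [e4]
            _ = lam * (w * (b * e⁻¹)) := by group
        exact mul_left_cancel h1
      have h5 : ⁅c, e⁆ = b * e⁻¹ := by
        rw [commutatorElement_def, hb_def]
      rw [h5]
      exact goal1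
  constructor
  · -- first inequality
    unfold Subgroup.relIndex Subgroup.index
    let g : C₁ ⧸ C₂.subgroupOf C₁ → P ⧸ (SA k U H).subgroupOf P := fun q =>
      QuotientGroup.mk ⟨⁅(q.out : H), e⁆, hmemP _ q.out.2⟩
    apply Nat.card_le_card_of_injective g
    intro q q' hqq
    have h1 := (QuotientGroup.eq (s := (SA k U H).subgroupOf P)).1 hqq
    rw [Subgroup.mem_subgroupOf] at h1
    simp only [Subgroup.coe_mul, InvMemClass.coe_inv] at h1
    set c : H := (q.out : H) with hc
    set c' : H := (q'.out : H) with hc'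
    obtain ⟨a, ha_def⟩ : ∃ a, a = ⁅c, e⁆⁻¹ * ⁅c', e⁆ := ⟨_, rfl⟩
    rw [← ha_def] at h1
    have hae : a * e = e * a := hcen a h1 e heC
    have h2 : c' * e * c'⁻¹ = c * e * c⁻¹ * a := by
      have h3 : ⁅c', e⁆ = ⁅c, e⁆ * a := by rw [ha_def]; group
      rw [commutatorElement_def, commutatorElement_def] at h3
      calc c' * e * c'⁻¹ = (c' * e * c'⁻¹ * e⁻¹) * e := by group
        _ = (c * e * c⁻¹ * e⁻¹ * a) * e := by rw [h3]
        _ = c * e * c⁻¹ * e⁻¹ * (a * e) := by group
        _ = c * e * c⁻¹ * e⁻¹ * (e * a) := by rw [hae]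
        _ = c * e * c⁻¹ * a := by group
    have h4 : c⁻¹ * c' ∈ C₂ := hinj c q.out.2 c' q'.out.2 a h1 h2
    have h5 : (QuotientGroup.mk q.out : C₁ ⧸ C₂.subgroupOf C₁) = QuotientGroup.mk q'.out := by
      rw [QuotientGroup.eq, Subgroup.mem_subgroupOf]
      simpa using h4
    rwa [QuotientGroup.out_eq', QuotientGroup.out_eq'] at h5
  · intro hW heA
    have h6 : Nat.card (C₁ ⧸ C₂.subgroupOf C₁) < Nat.card (S ⧸ (SA k U H).subgroupOf S) := by
      let g : C₁ ⧸ C₂.subgroupOf C₁ → S ⧸ (SA k U H).subgroupOf S := fun q =>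
        QuotientGroup.mk ⟨(q.out : H) * e * (q.out : H)⁻¹, hconjS _⟩
      have hginj : Function.Injective g := by
        intro q q' hqq
        have h1 := (QuotientGroup.eq (s := (SA k U H).subgroupOf S)).1 hqq
        rw [Subgroup.mem_subgroupOf] at h1
        simp only [Subgroup.coe_mul, InvMemClass.coe_inv] at h1
        set c : H := (q.out : H) with hc
        set c' : H := (q'.out : H) with hc'
        have h2 : c' * e * c'⁻¹ = c * e * c⁻¹ * ((c * e * c⁻¹)⁻¹ * (c' * e * c'⁻¹)) := by group
        have h4 : c⁻¹ * c' ∈ C₂ := hinj c q.out.2 c' q'.out.2 _ h1 h2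
        have h5 : (QuotientGroup.mk q.out : C₁ ⧸ C₂.subgroupOf C₁) = QuotientGroup.mk q'.out := by
          rw [QuotientGroup.eq, Subgroup.mem_subgroupOf]
          simpa using h4
        rwa [QuotientGroup.out_eq', QuotientGroup.out_eq'] at h5
      have hnot : (QuotientGroup.mk 1 : S ⧸ (SA k U H).subgroupOf S) ∉ Set.range g := by
        rintro ⟨q, hq⟩
        have h1 := (QuotientGroup.eq (s := (SA k U H).subgroupOf S)).1 hq
        rw [Subgroup.mem_subgroupOf] at h1
        simp only [InvMemClass.coe_inv, mul_one] at h1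
        set c : H := (q.out : H) with hc
        have h2 : c * e * c⁻¹ ∈ SA k U H := by
          have := (SA k U H).inv_mem h1
          simpa using this
        have hcC := hC1C c q.out.2
        apply heA
        have h3 := hcen _ h2 c hcC
        have h4 : c * e * c⁻¹ = e := by
          have h5 : c * (c * e * c⁻¹) = c * e := by
            rw [← h3]; group
          exact mul_left_cancel h5
        rwa [h4] at h2
      classical
      have : Fintype (C₁ ⧸ C₂.subgroupOf C₁) := Fintype.ofFinite _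
      have : Fintype (S ⧸ (SA k U H).subgroupOf S) := Fintype.ofFinite _
      rw [Nat.card_eq_fintype_card, Nat.card_eq_fintype_card]
      exact Fintype.card_lt_of_injective_of_notMem g hginj hnot
    have h7 : C₂.relIndex C₁ < (SA k U H).relIndex S := h6
    omega

end QS
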